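import Pool.Agent.H69.GA.CFA

/-!
Row CFB of the board ga: the coefficient functions on the dual side are bounded (after helper69's
row CFA).
-/

set_option autoImplicit false

namespace Pool.Agent.H83.GA

open MeasureTheory Pool.Agent.H34.GM Pool.Agent.H34.GZ Pool.Agent.H34.GU Pool.Agent.H34.GA
open Pool.Agent.H69.GA

/-- right translations preserve the norm -/
theorem cfb_right (hVLM : T_VLM) (hRTI : T_RTI) (hALU : T_ALU) {m N : ℕ} [NeZero N]
    {T : ℕ → Finset (ZM m)} {D : Set (V m)} (hS : SysZ m N T D) {F : Mat m → VN m N → ℂ}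
    {lam : ℕ → ℂ} (hF : HecA m N T F lam) {w : Mat m} (hw : w.det ≠ 0) :
    0 ≤ nU D F ∧
    ∫⁻ z in D, ENNReal.ofReal (∑ x : VN m N, ‖F (mt z) x‖ ^ 2) ∂(hm m) =
      ENNReal.ofReal (nU D F) ∧
    ∫⁻ z in D, ENNReal.ofReal (∑ x : VN m N, ‖F (mt z * w⁻¹) x‖ ^ 2) ∂(hm m) =
      ENNReal.ofReal (nU D F) := by
  have hm1 := hS.one_le
  have hN2 := hS.two_le
  have hD := hS.dom
  obtain ⟨C, K, -, hvl⟩ := hVLM m hm1
  have hfin : hm m D < ⊤ := lt_of_le_of_lt (hvl D hD).1 ENNReal.ofReal_lt_top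
  obtain ⟨BF, hBF⟩ := hF.bdd
  have hdet : ∀ z ∈ D, (mt z).det ≠ 0 := fun z hz => cfa_ne hm1 (hD.shell z hz).1
  have hfm : IsFiniteMeasure ((hm m).restrict D) := ⟨by rwa [Measure.restrict_apply_univ]⟩
  have hopenV : IsOpen {w : V m | (mt w).det ≠ 0} := isOpen_ne_fun (cfa_det m) continuous_const
  have hmuldet : ∀ z ∈ D, ∀ w : Mat m, w.det ≠ 0 → (mt z * w⁻¹).det ≠ 0 := by
    intro z hz w hw
    rw [Matrix.det_mul]
    exact mul_ne_zero (hdet z hz) (cfa_invdet hw)
  have hsm1 : ∀ x, AEStronglyMeasurable (fun z : V m => F (mt z) x) ((hm m).restrict D) := by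
    intro x
    have h1 : ContinuousOn (fun z : V m => F (mt z) x) D :=
      (hF.cont x).comp (cfa_mt m).continuousOn (fun z hz => hdet z hz)
    exact h1.aestronglyMeasurable hD.meas
  have hwi := cfa_invdet hw
  have hint : ∀ x, Integrable (fun z : V m => ‖F (mt z) x‖ ^ 2) ((hm m).restrict D) := by
    intro x
    refine Integrable.of_bound ((hsm1 x).norm.pow 2) (BF ^ 2) ?_
    rw [ae_restrict_iff' hD.meas]
    refine Filter.Eventually.of_forall fun z hz => ?_
    have h1 := hBF (mt z) x (hdet z hz)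
    rw [Real.norm_of_nonneg (by positivity)]
    exact pow_le_pow_left₀ (norm_nonneg _) h1 2
  have hnF : nU D F = ∫ z in D, ∑ x : VN m N, ‖F (mt z) x‖ ^ 2 ∂(hm m) := by
    unfold nU
    rw [integral_finsetSum _ fun x _ => hint x]
  have hnn : 0 ≤ nU D F := by
    rw [hnF]
    exact integral_nonneg fun z => Finset.sum_nonneg fun x _ => by positivity
  have hnL : ∫⁻ z in D, ENNReal.ofReal (∑ x : VN m N, ‖F (mt z) x‖ ^ 2) ∂(hm m) =
      ENNReal.ofReal (nU D F) := by
    rw [hnF, ofReal_integral_eq_lintegral_ofReal (integrable_finsetSum _ fun x _ => hint x)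
      (Filter.Eventually.of_forall fun z => Finset.sum_nonneg fun x _ => by positivity)]
  refine ⟨hnn, hnL, ?_⟩
  -- the invariant function
  obtain ⟨S, hSd⟩ : ∃ S : V m → ℝ, S =
      Set.piecewise {z : V m | (mt z).det ≠ 0} (fun z => ∑ x : VN m N, ‖F (mt z) x‖ ^ 2)
        (fun _ => (0 : ℝ)) := ⟨_, rfl⟩
  have hS1 : ∀ z, (mt z).det ≠ 0 → S z = ∑ x : VN m N, ‖F (mt z) x‖ ^ 2 := by
    intro z hz
    rw [hSd]
    exact Set.piecewise_eq_of_mem _ _ _ hz
  have hSm : Measurable S := by
    rw [hSd]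
    refine ContinuousOn.measurable_piecewise ?_ continuousOn_const hopenV.measurableSet
    refine continuousOn_finsetSum _ fun x _ => ?_
    exact ((hF.cont x).comp (cfa_mt m).continuousOn (fun z hz => hz)).norm.pow 2
  have hbij := hALU m N hm1 hN2
  have hrti := hRTI m hm1 D hD (fun z => ENNReal.ofReal (S z)) hSm.ennreal_ofReal ?_ ?_
    w⁻¹ hwi
  rotate_left
  · intro γ hγ z hz
    have hγ1 : (cR γ).det ≠ 0 := by
      have h1 : (cR γ).det = ((γ.det : ℤ) : ℝ) := ((Int.castRingHom ℝ).map_det γ).symm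
      rw [h1]
      have h2 := (Matrix.isUnit_iff_isUnit_det γ).1 hγ
      exact_mod_cast h2.ne_zero
    have h2 : (mt (fun i j => (cR γ * mt z) i j : V m)).det ≠ 0 := by
      show (cR γ * mt z).det ≠ 0
      rw [Matrix.det_mul]
      exact mul_ne_zero hγ1 hz
    show ENNReal.ofReal (S _) = ENNReal.ofReal (S z)
    rw [hS1 _ h2, hS1 _ hz]
    congr 1
    have h3 := hbij.2.2.2.2.2 γ hγ
    have h4 : (∑ x : VN m N, ‖F (cR γ * Pool.Agent.H34.GM.mt z) (ac N γ x)‖ ^ 2) =
        ∑ x : VN m N, ‖F (cR γ * Pool.Agent.H34.GM.mt z) x‖ ^ 2 :=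
      h3.sum_comp (fun x => ‖F (cR γ * Pool.Agent.H34.GM.mt z) x‖ ^ 2)
    show (∑ x : VN m N, ‖F (cR γ * Pool.Agent.H34.GM.mt z) x‖ ^ 2) = _
    rw [← h4]
    refine Finset.sum_congr rfl fun x _ => ?_
    rw [hF.auto γ hγ (mt z) x hz]
  · intro c hc z hz
    have h2 : (mt (c • z)).det ≠ 0 := by
      show (c • mt z).det ≠ 0
      rw [Matrix.det_smul, Fintype.card_fin]
      exact mul_ne_zero (pow_ne_zero _ hc.ne') hz
    show ENNReal.ofReal (S _) = ENNReal.ofReal (S z)
    rw [hS1 _ h2, hS1 _ hz]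
    congr 1
    refine Finset.sum_congr rfl fun x _ => ?_
    show ‖F (c • mt z) x‖ ^ 2 = _
    rw [hF.scal c hc (mt z) x hz]
  rw [← hnL]
  have e1 : ∫⁻ z in D, ENNReal.ofReal (∑ x : VN m N, ‖F (mt z * w⁻¹) x‖ ^ 2) ∂(hm m) =
      ∫⁻ z in D, ENNReal.ofReal (S (fun i j => (mt z * w⁻¹) i j)) ∂(hm m) := by
    refine setLIntegral_congr_fun hD.meas fun z hz => ?_
    have h1 : (mt (fun i j => (mt z * w⁻¹) i j : V m)).det ≠ 0 := hmuldet z hz w hw
    show _ = ENNReal.ofReal (S _)
    rw [hS1 _ h1]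
    rfl
  have e2 : ∫⁻ z in D, ENNReal.ofReal (S z) ∂(hm m) =
      ∫⁻ z in D, ENNReal.ofReal (∑ x : VN m N, ‖F (mt z) x‖ ^ 2) ∂(hm m) := by
    refine setLIntegral_congr_fun hD.meas fun z hz => ?_
    show ENNReal.ofReal (S z) = _
    rw [hS1 z (hdet z hz)]
  rw [e1, ← e2]
  exact hrti

theorem pf_CFB (hVLM : T_VLM) (hRTI : T_RTI) (hALU : T_ALU) (hHAR : T_HAR) (hPSU : T_PSU)
    (hFR2 : T_FR2) : Pool.Agent.H34.GA.T_CFB := by
  classical
  intro m N _ T D hS H xv hH F lam hF
  have hm1 := hS.one_le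
  have hN2 := hS.two_le
  have hD := hS.dom
  obtain ⟨C, K, -, hvl⟩ := hVLM m hm1
  have hfin : hm m D < ⊤ := lt_of_le_of_lt (hvl D hD).1 ENNReal.ofReal_lt_top
  obtain ⟨BF, hBF⟩ := hF.bdd
  have hdet : ∀ z ∈ D, (mt z).det ≠ 0 := fun z hz => cfa_ne hm1 (hD.shell z hz).1
  have hfm : IsFiniteMeasure ((hm m).restrict D) := ⟨by rwa [Measure.restrict_apply_univ]⟩
  have hopen : IsOpen {g : Mat m | g.det ≠ 0} :=
    isOpen_ne_fun (Continuous.matrix_det continuous_id) continuous_const
  have hopenV : IsOpen {w : V m | (mt w).det ≠ 0} := isOpen_ne_fun (cfa_det m) continuous_const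
  have hcRd : ∀ α : ZM m, (cR α).det = ((α.det : ℤ) : ℝ) := fun α =>
    ((Int.castRingHom ℝ).map_det α).symm
  have hHd : ∀ v, Pr v → (cR (H v)).det ≠ 0 := by
    intro v hv
    rw [hcRd]
    have h1 := hH.det v hv
    have h2 : (H v).det ≠ 0 := by
      intro h0
      rw [h0, Int.natAbs_zero] at h1
      exact pow_ne_zero (m - 1) (NeZero.ne N) h1.symm
    exact_mod_cast h2
  have hmd : ∀ v, Pr v → ∀ z ∈ D, ∀ w : Mat m, w.det ≠ 0 →
      (cR (H v) * mt z * w⁻¹).det ≠ 0 := by
    intro v hv z hz w hw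
    rw [Matrix.det_mul, Matrix.det_mul]
    exact mul_ne_zero (mul_ne_zero (hHd v hv) (hdet z hz)) (cfa_invdet hw)
  have hmuldet : ∀ z ∈ D, ∀ w : Mat m, w.det ≠ 0 → (mt z * w⁻¹).det ≠ 0 := by
    intro z hz w hw
    rw [Matrix.det_mul]
    exact mul_ne_zero (hdet z hz) (cfa_invdet hw)
  obtain ⟨-, -, hpn, -, hpars⟩ := hPSU m N hm1 hN2
  -- the Fourier transform
  obtain ⟨A, hAd⟩ : ∃ A : VN m N → V m → ℂ, A = fun v z => ∑ y, psn N (dt v y) * F (mt z) y :=
    ⟨_, rfl⟩
  have hAe : ∀ v z, A v z = ∑ y, psn N (dt v y) * F (mt z) y := fun v z => by rw [hAd]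
  obtain ⟨BA, hBAd⟩ : ∃ BA : ℝ, BA = ∑ _y : VN m N, BF := ⟨_, rfl⟩
  have hAb : ∀ v, ∀ z ∈ D, ‖A v z‖ ≤ BA := by
    intro v z hz
    rw [hAe, hBAd]
    refine (norm_sum_le _ _).trans (Finset.sum_le_sum fun y _ => ?_)
    rw [norm_mul, hpn, one_mul]
    exact hBF (mt z) y (hdet z hz)
  have hsm1 : ∀ x, AEStronglyMeasurable (fun z : V m => F (mt z) x) ((hm m).restrict D) := by
    intro x
    have h1 : ContinuousOn (fun z : V m => F (mt z) x) D :=
      (hF.cont x).comp (cfa_mt m).continuousOn (fun z hz => hdet z hz)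
    exact h1.aestronglyMeasurable hD.meas
  have hAm : ∀ v, AEStronglyMeasurable (A v) ((hm m).restrict D) := by
    intro v
    have h1 : A v = fun z => ∑ y, psn N (dt v y) * F (mt z) y := by rw [hAd]
    rw [h1]
    exact Finset.aestronglyMeasurable_fun_sum _ fun y _ => (hsm1 y).const_mul _
  -- measurability of the translates
  have hsm : ∀ v, Pr v → ∀ (w : Mat m), w.det ≠ 0 → ∀ x,
      AEStronglyMeasurable (fun z : V m => F (cR (H v) * mt z * w⁻¹) x)
        ((hm m).restrict D) := by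
    intro v hv w hw x
    have h1 : ContinuousOn (fun z : V m => F (cR (H v) * mt z * w⁻¹) x) D := by
      refine (hF.cont x).comp
        ((continuous_const.mul (cfa_mt m)).mul continuous_const).continuousOn ?_
      exact fun z hz => hmd v hv z hz w hw
    exact h1.aestronglyMeasurable hD.meas
  have hc2 : ∀ w : Mat m, c2 D H xv F w = (((N : ℝ) ^ (-((m : ℝ) / 2)) : ℝ) : ℂ) *
      ∑ v : VN m N, if Pr v then ∫ (z : V m) in D, (starRingEnd ℂ) (A v z) *
        F (cR (H v) * mt z * w⁻¹) (xv v) ∂(hm m) else 0 := by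
    intro w
    rw [hAd]
    rfl
  refine ⟨?_, ?_, ?_⟩
  · -- measurability
    have hco : ContinuousOn (fun w : V m => c2 D H xv F (mt w)) {w : V m | (mt w).det ≠ 0} := by
      intro w0 hw0
      have hw0' : (mt w0).det ≠ 0 := hw0
      refine ContinuousAt.continuousWithinAt ?_
      have hfun : (fun w : V m => c2 D H xv F (mt w)) = fun w : V m =>
          (((N : ℝ) ^ (-((m : ℝ) / 2)) : ℝ) : ℂ) *
          ∑ v : VN m N, if Pr v then ∫ (z : V m) in D, (starRingEnd ℂ) (A v z) *
            F (cR (H v) * mt z * (mt w)⁻¹) (xv v) ∂(hm m) else 0 := funext fun w => hc2 (mt w)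
      rw [hfun]
      refine ContinuousAt.mul continuousAt_const ?_
      refine tendsto_finsetSum _ fun v _ => ?_
      by_cases hv : Pr v
      swap
      · simp only [if_neg hv]
        exact tendsto_const_nhds
      simp only [if_pos hv]
      have hnb : ∀ᶠ w in nhds w0, (mt w).det ≠ 0 := hopenV.mem_nhds hw0'
      have hca : ContinuousAt (fun w : V m => ∫ (z : V m) in D, (starRingEnd ℂ) (A v z) *
          F (cR (H v) * mt z * (mt w)⁻¹) (xv v) ∂(hm m)) w0 := by
        refine continuousAt_of_dominated (bound := fun _ => BA * BF) ?_ ?_ ?_ ?_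
        · filter_upwards [hnb] with w hw
          exact (Complex.continuous_conj.comp_aestronglyMeasurable (hAm v)).mul
            (hsm v hv (mt w) hw (xv v))
        · filter_upwards [hnb] with w hw
          refine (ae_restrict_iff' hD.meas).2 (Filter.Eventually.of_forall fun z hz => ?_)
          rw [norm_mul, RCLike.norm_conj]
          have h1 := hBF _ (xv v) (hmd v hv z hz (mt w) hw)
          have h2 := hAb v z hz
          exact mul_le_mul h2 h1 (norm_nonneg _) ((norm_nonneg _).trans h2)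
        · exact integrable_const _
        · refine (ae_restrict_iff' hD.meas).2 (Filter.Eventually.of_forall fun z hz => ?_)
          have h1 : ContinuousAt (fun w : V m => cR (H v) * mt z * (mt w)⁻¹) w0 :=
            continuousAt_const.mul (cfa_inv hw0')
          have h2 : ContinuousAt (fun g : Mat m => F g (xv v))
              (cR (H v) * mt z * (mt w0)⁻¹) :=
            (hF.cont (xv v)).continuousAt (hopen.mem_nhds (hmd v hv z hz (mt w0) hw0'))
          exact continuousAt_const.mul (ContinuousAt.comp (g := fun g : Mat m => F g (xv v))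
            (f := fun w : V m => cR (H v) * mt z * (mt w)⁻¹) h2 h1)
      exact hca
    have h1 := hco.aestronglyMeasurable (μ := hm m) hopenV.measurableSet
    have h2 : (hm m).restrict {w : V m | (mt w).det ≠ 0} = hm m := by
      refine Measure.restrict_eq_self_of_ae_mem ?_
      rw [ae_iff]
      simpa using (hHAR m hm1).2.2.1
    rw [h2] at h1
    exact h1
  · -- invariance under the positive scalars
    intro r hr w hw
    rw [hc2, hc2]
    congr 1
    refine Finset.sum_congr rfl fun v _ => ?_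
    by_cases hv : Pr v
    swap
    · rw [if_neg hv, if_neg hv]
    rw [if_pos hv, if_pos hv]
    refine setIntegral_congr_fun hD.meas fun z hz => ?_
    show _ * F (cR (H v) * mt z * (r • w)⁻¹) (xv v) = _ * F (cR (H v) * mt z * w⁻¹) (xv v)
    have h1 : (r • w)⁻¹ = r⁻¹ • w⁻¹ := by
      refine Matrix.inv_eq_left_inv ?_
      rw [Matrix.smul_mul, Matrix.mul_smul, smul_smul, inv_mul_cancel₀ hr.ne', one_smul,
        Matrix.nonsing_inv_mul _ (isUnit_iff_ne_zero.2 hw)]
    rw [h1, Matrix.mul_smul, hF.scal r⁻¹ (inv_pos.2 hr) _ (xv v) (hmd v hv z hz w hw)]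
  · -- the bound
    intro w hw
    obtain ⟨hnn, hnL, hR⟩ := cfb_right hVLM hRTI hALU hS hF hw
    obtain ⟨κ, hκ⟩ : ∃ κ : ℝ, κ = (N : ℝ) ^ (-((m : ℝ) / 2)) := ⟨_, rfl⟩
    have hNpos : (0 : ℝ) < N := by
      have : 0 < N := Nat.pos_of_ne_zero (NeZero.ne N)
      exact_mod_cast this
    have hκ0 : 0 ≤ κ := by rw [hκ]; positivity
    have hκ2 : κ ^ 2 * (N : ℝ) ^ m = 1 := by
      rw [hκ, ← Real.rpow_natCast, ← Real.rpow_mul hNpos.le, ← Real.rpow_natCast (N : ℝ) m,
        ← Real.rpow_add hNpos]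
      have : -((m : ℝ) / 2) * ((2 : ℕ) : ℝ) + (m : ℝ) = 0 := by push_cast; ring
      rw [this, Real.rpow_zero]
    -- the function of the correspondence
    obtain ⟨S, hSd⟩ : ∃ S : VN m N → V m → ℝ, S = fun x =>
        Set.piecewise {z : V m | (mt z).det ≠ 0} (fun z => ‖F (mt z * w⁻¹) x‖ ^ 2)
          (fun _ => (0 : ℝ)) := ⟨_, rfl⟩
    have hS1 : ∀ x z, (mt z).det ≠ 0 → S x z = ‖F (mt z * w⁻¹) x‖ ^ 2 := by
      intro x z hz
      rw [hSd]
      exact Set.piecewise_eq_of_mem _ _ _ hz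
    have hS0 : ∀ x z, (mt z).det = 0 → S x z = 0 := by
      intro x z hz
      rw [hSd]
      exact Set.piecewise_eq_of_notMem _ _ _ (fun h => h hz)
    have hSm : ∀ x, Measurable (S x) := by
      intro x
      rw [hSd]
      refine ContinuousOn.measurable_piecewise ?_ continuousOn_const hopenV.measurableSet
      have h1 : ContinuousOn (fun z : V m => F (mt z * w⁻¹) x) {z : V m | (mt z).det ≠ 0} := by
        refine (hF.cont x).comp ((cfa_mt m).mul continuous_const).continuousOn ?_
        intro z hz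
        show (mt z * w⁻¹).det ≠ 0
        rw [Matrix.det_mul]
        exact mul_ne_zero hz (cfa_invdet hw)
      exact h1.norm.pow 2
    have hfr := hFR2 m N hm1 hN2 H xv hH D hD (fun z x => ENNReal.ofReal (S x z))
      (fun x => (hSm x).ennreal_ofReal) ?_ ?_
    rotate_left
    · intro γ hγ z x hz
      have hγ1 : (cR γ).det ≠ 0 := by
        rw [hcRd]
        have h2 := (Matrix.isUnit_iff_isUnit_det γ).1 hγ
        exact_mod_cast h2.ne_zero
      have h2 : (mt (fun i j => (cR γ * mt z) i j : V m)).det ≠ 0 := by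
        show (cR γ * mt z).det ≠ 0
        rw [Matrix.det_mul]
        exact mul_ne_zero hγ1 hz
      show ENNReal.ofReal (S _ _) = ENNReal.ofReal (S x z)
      rw [hS1 _ _ h2, hS1 _ _ hz]
      have h3 : (mt z * w⁻¹).det ≠ 0 := by
        rw [Matrix.det_mul]
        exact mul_ne_zero hz (cfa_invdet hw)
      have h4 := hF.auto γ hγ (mt z * w⁻¹) x h3
      rw [← h4, ← Matrix.mul_assoc]
      rfl
    · intro c hc z x
      show ENNReal.ofReal (S _ _) = ENNReal.ofReal (S x z)
      by_cases hz : (mt z).det = 0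
      · have h2 : (mt (c • z)).det = 0 := by
          show (c • mt z).det = 0
          rw [Matrix.det_smul, hz, mul_zero]
        rw [hS0 _ _ h2, hS0 _ _ hz]
      · have h2 : (mt (c • z)).det ≠ 0 := by
          show (c • mt z).det ≠ 0
          rw [Matrix.det_smul, Fintype.card_fin]
          exact mul_ne_zero (pow_ne_zero _ hc.ne') hz
        have h3 : (mt z * w⁻¹).det ≠ 0 := by
          rw [Matrix.det_mul]
          exact mul_ne_zero hz (cfa_invdet hw)
        rw [hS1 _ _ h2, hS1 _ _ hz]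
        show ENNReal.ofReal (‖F (c • mt z * w⁻¹) x‖ ^ 2) = _
        rw [Matrix.smul_mul, hF.scal c hc _ x h3]
    -- the two sides
    have hL : ∫⁻ z in D, ∑ v : VN m N, (if Pr v then
        ENNReal.ofReal (‖F (cR (H v) * mt z * w⁻¹) (xv v)‖ ^ 2) else 0) ∂(hm m) ≤
        ENNReal.ofReal (nU D F) := by
      have e1 : ∫⁻ z in D, ∑ v : VN m N, (if Pr v then
          ENNReal.ofReal (‖F (cR (H v) * mt z * w⁻¹) (xv v)‖ ^ 2) else 0) ∂(hm m) =
          ∫⁻ z in D, ∑ v : VN m N, (if Pr v then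
            ENNReal.ofReal (S (xv v) (fun i j => (cR (H v) * mt z) i j)) else 0) ∂(hm m) := by
        refine setLIntegral_congr_fun hD.meas fun z hz => ?_
        refine Finset.sum_congr rfl fun v _ => ?_
        by_cases hv : Pr v
        swap
        · rw [if_neg hv, if_neg hv]
        rw [if_pos hv, if_pos hv]
        have h2 : (mt (fun i j => (cR (H v) * mt z) i j : V m)).det ≠ 0 := by
          show (cR (H v) * mt z).det ≠ 0
          rw [Matrix.det_mul]
          exact mul_ne_zero (hHd v hv) (hdet z hz)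
        rw [hS1 _ _ h2]
        rfl
      rw [e1]
      refine le_trans hfr ?_
      rw [← hR]
      refine setLIntegral_mono' hD.meas fun z hz => ?_
      rw [ENNReal.ofReal_sum_of_nonneg fun x _ => by positivity]
      refine Finset.sum_le_sum fun x _ => ?_
      by_cases hx : Pr x
      · rw [if_pos hx, hS1 _ _ (hdet z hz)]
      · rw [if_neg hx]
        exact zero_le
    -- one integral
    have hbi : ∀ v, Integrable (fun z : V m => if Pr v then (starRingEnd ℂ) (A v z) *
        F (cR (H v) * mt z * w⁻¹) (xv v) else 0) ((hm m).restrict D) := by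
      intro v
      by_cases hv : Pr v
      swap
      · simp only [if_neg hv]
        exact integrable_zero _ _ _
      simp only [if_pos hv]
      refine Integrable.of_bound ((Complex.continuous_conj.comp_aestronglyMeasurable (hAm v)).mul
            (hsm v hv w hw (xv v))) (BA * BF) ?_
      refine (ae_restrict_iff' hD.meas).2 (Filter.Eventually.of_forall fun z hz => ?_)
      rw [norm_mul, RCLike.norm_conj]
      have h1 := hBF _ (xv v) (hmd v hv z hz w hw)
      have h2 := hAb v z hz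
      exact mul_le_mul h2 h1 (norm_nonneg _) ((norm_nonneg _).trans h2)
    have hone : c2 D H xv F w = ∫ (z : V m) in D, (κ : ℂ) * ∑ v : VN m N,
        (if Pr v then (starRingEnd ℂ) (A v z) * F (cR (H v) * mt z * w⁻¹) (xv v) else 0)
          ∂(hm m) := by
      rw [hc2, ← hκ, integral_const_mul, integral_finsetSum _ fun v _ => hbi v]
      congr 1
      refine Finset.sum_congr rfl fun v _ => ?_
      by_cases hv : Pr v
      · simp only [if_pos hv]
      · simp only [if_neg hv, integral_zero]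
    rw [hone]
    refine (norm_integral_le_lintegral_norm _).trans ?_
    refine ENNReal.toReal_le_of_le_ofReal hnn ?_
    have hpt : ∀ z ∈ D, ENNReal.ofReal ‖(κ : ℂ) * ∑ v : VN m N,
        (if Pr v then (starRingEnd ℂ) (A v z) * F (cR (H v) * mt z * w⁻¹) (xv v) else 0)‖ ≤
        ENNReal.ofReal (1 / 2) * ENNReal.ofReal (∑ x : VN m N, ‖F (mt z) x‖ ^ 2) +
        ENNReal.ofReal (1 / 2) * ∑ v : VN m N, (if Pr v then
          ENNReal.ofReal (‖F (cR (H v) * mt z * w⁻¹) (xv v)‖ ^ 2) else 0) := by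
      intro z hz
      have hq1 : 0 ≤ ∑ x : VN m N, ‖F (mt z) x‖ ^ 2 := Finset.sum_nonneg fun x _ => by positivity
      have hq2 : ∀ v : VN m N, 0 ≤ (if Pr v then
          ‖F (cR (H v) * mt z * w⁻¹) (xv v)‖ ^ 2 else 0 : ℝ) := by
        intro v
        by_cases hv : Pr v
        · rw [if_pos hv]; positivity
        · rw [if_neg hv]
      have hq3 : ∑ v : VN m N, (if Pr v then
          ENNReal.ofReal (‖F (cR (H v) * mt z * w⁻¹) (xv v)‖ ^ 2) else 0) =
          ENNReal.ofReal (∑ v : VN m N, (if Pr v then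
            ‖F (cR (H v) * mt z * w⁻¹) (xv v)‖ ^ 2 else 0 : ℝ)) := by
        rw [ENNReal.ofReal_sum_of_nonneg fun v _ => hq2 v]
        refine Finset.sum_congr rfl fun v _ => ?_
        by_cases hv : Pr v
        · rw [if_pos hv, if_pos hv]
        · rw [if_neg hv, if_neg hv, ENNReal.ofReal_zero]
      have hq4 : 0 ≤ ∑ v : VN m N, (if Pr v then
            ‖F (cR (H v) * mt z * w⁻¹) (xv v)‖ ^ 2 else 0 : ℝ) :=
        Finset.sum_nonneg fun v _ => hq2 v
      rw [hq3, ← ENNReal.ofReal_mul (by norm_num), ← ENNReal.ofReal_mul (by norm_num),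
        ← ENNReal.ofReal_add (by positivity) (by positivity)]
      refine ENNReal.ofReal_le_ofReal ?_
      have hP : κ ^ 2 * ∑ v : VN m N, ‖A v z‖ ^ 2 = ∑ x : VN m N, ‖F (mt z) x‖ ^ 2 := by
        have h1 := hpars (fun y => F (mt z) y)
        have h2 : ∑ v : VN m N, ‖A v z‖ ^ 2 = (N : ℝ) ^ m * ∑ y, ‖F (mt z) y‖ ^ 2 := by
          rw [← h1]
          refine Finset.sum_congr rfl fun v _ => ?_
          rw [hAe]
        rw [h2, ← mul_assoc, hκ2, one_mul]
      rw [← hP, norm_mul, Complex.norm_real, Real.norm_of_nonneg hκ0]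
      refine (mul_le_mul_of_nonneg_left (norm_sum_le _ _) hκ0).trans ?_
      rw [Finset.mul_sum, Finset.mul_sum, Finset.mul_sum, Finset.mul_sum,
        ← Finset.sum_add_distrib]
      refine Finset.sum_le_sum fun v _ => ?_
      by_cases hv : Pr v
      · rw [if_pos hv, if_pos hv, norm_mul, RCLike.norm_conj]
        nlinarith [sq_nonneg (κ * ‖A v z‖ - ‖F (cR (H v) * mt z * w⁻¹) (xv v)‖)]
      · rw [if_neg hv, if_neg hv, norm_zero]
        have : 0 ≤ κ ^ 2 * ‖A v z‖ ^ 2 := by positivity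
        linarith
    refine (setLIntegral_mono' hD.meas hpt).trans ?_
    have hI1 : AEMeasurable (fun z : V m => ENNReal.ofReal (∑ x : VN m N, ‖F (mt z) x‖ ^ 2))
        ((hm m).restrict D) := by
      have h1 : AEStronglyMeasurable (fun z : V m => ∑ x : VN m N, ‖F (mt z) x‖ ^ 2)
          ((hm m).restrict D) :=
        Finset.aestronglyMeasurable_fun_sum _ fun x _ => (hsm1 x).norm.pow 2
      exact h1.aemeasurable.ennreal_ofReal
    rw [lintegral_add_left', lintegral_const_mul', lintegral_const_mul', hnL]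
    · calc ENNReal.ofReal (1 / 2) * ENNReal.ofReal (nU D F) + ENNReal.ofReal (1 / 2) *
            ∫⁻ z in D, ∑ v : VN m N, (if Pr v then
              ENNReal.ofReal (‖F (cR (H v) * mt z * w⁻¹) (xv v)‖ ^ 2) else 0) ∂(hm m)
          ≤ ENNReal.ofReal (1 / 2) * ENNReal.ofReal (nU D F) + ENNReal.ofReal (1 / 2) *
            ENNReal.ofReal (nU D F) := add_le_add le_rfl (mul_le_mul' le_rfl hL)
        _ = ENNReal.ofReal (nU D F) := by
            rw [← ENNReal.ofReal_mul (by norm_num), ← ENNReal.ofReal_add (by positivity)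
              (by positivity)]
            congr 1
            ring
    · exact ENNReal.ofReal_ne_top
    · exact ENNReal.ofReal_ne_top
    · exact AEMeasurable.const_mul hI1 _

end Pool.Agent.H83.GA
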