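import Pool.Agent.H34.GA.Targets1

/-!
# Board ga (MP_52e316_nt), row D4A: the fourth moment of the sums of the eigenvalues is bounded by
the energy
-/

set_option autoImplicit false

namespace Pool.Agent.H83.GA

open MeasureTheory Pool.Agent.H34.GM Pool.Agent.H34.GZ Pool.Agent.H34.GU Pool.Agent.H34.GA

private lemma da_twice {m N : ℕ} (Φ : Mat m → ℂ) (y : ℝ) {D : Set (V m)}
    (hD : MeasurableSet D) (F G : Mat m → VN m N → ℂ) (c : ℂ)
    (hdm : ∀ z ∈ D, (mt z).det ≠ 0)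
    (h : ∀ (g : Mat m) (x : VN m N), g.det ≠ 0 → opCu N Φ y D F g x = c * G g x)
    (g : Mat m) (x : VN m N) :
    opCu N Φ y D (opCu N Φ y D F) g x = c * opCu N Φ y D G g x := by
  have h0 : opCu N Φ y D (opCu N Φ y D F) g x =
      ∫ z in D, ∑' α : ZM m, (if y / 2 < (α.det.natAbs : ℝ) ∧ (α.det.natAbs : ℝ) ≤ y then
        Φ (kk (aN (cR α)) (mt z) (cR α) g) * (opCu N Φ y D F) (mt z) (ac N α x) else 0) ∂(hm m) :=
    rfl
  have h00 : opCu N Φ y D G g x =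
      ∫ z in D, ∑' α : ZM m, (if y / 2 < (α.det.natAbs : ℝ) ∧ (α.det.natAbs : ℝ) ≤ y then
        Φ (kk (aN (cR α)) (mt z) (cR α) g) * G (mt z) (ac N α x) else 0) ∂(hm m) := rfl
  rw [h0, h00, ← integral_const_mul]
  apply setIntegral_congr_fun hD
  intro z hz
  simp only
  rw [← tsum_mul_left]
  apply tsum_congr
  intro α
  by_cases hc : y / 2 < (α.det.natAbs : ℝ) ∧ (α.det.natAbs : ℝ) ≤ y
  · rw [if_pos hc, if_pos hc, h (mt z) (ac N α x) (hdm z hz)]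
    ring
  · rw [if_neg hc, if_neg hc, mul_zero]

private lemma da_norm {m N : ℕ} [NeZero N] {ι : Type} [DecidableEq ι] {D : Set (V m)}
    {F : ι → Mat m → VN m N → ℂ} (hO : Orthn D F) (i : ι) : nU D (F i) = 1 := by
  unfold nU
  have h2 := hO.2 i i
  rw [if_pos rfl] at h2
  have h3 : ∑ x : VN m N, ∫ z in D, F i (mt z) x * (starRingEnd ℂ) (F i (mt z) x) ∂(hm m) =
      ((∑ x : VN m N, ∫ z in D, ‖F i (mt z) x‖ ^ 2 ∂(hm m) : ℝ) : ℂ) := by
    rw [Complex.ofReal_sum]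
    apply Finset.sum_congr rfl
    intro x _
    rw [← integral_complex_ofReal]
    apply integral_congr_ae
    refine Filter.Eventually.of_forall ?_
    intro z
    simp only [RCLike.mul_conj]
    norm_cast
  rw [h3] at h2
  exact_mod_cast h2

theorem pf_D4A : Pool.Agent.H34.GA.T_HSA → T_OCA → T_RRA → T_MSA → T_DYM → T_BIA → T_D4A := by
  intro hHSA hOCA hRRA hMSA hDYM hBIA m χ hm1 hχ
  obtain ⟨cM, CM, AM, hcM, hCM, hM⟩ := hMSA m χ hm1 hχ
  obtain ⟨CB, hCB, hB⟩ := hBIA m χ hm1 hχ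
  refine ⟨cM, CM + cM⁻¹, AM, hcM, by have := inv_pos.2 hcM; linarith, ?_⟩
  intro N _ T D hS ι _ _ F lam P hF hO δ hδ hδ2 hδc y Y hy hY
  have hdi : (1 : ℝ) ≤ δ⁻¹ := by
    rw [le_inv_comm₀ (by norm_num) hδ]
    linarith
  have hN0 : (0 : ℝ) ≤ N := Nat.cast_nonneg N
  have hci : 0 < cM⁻¹ := inv_pos.2 hcM
  have hY' : CM * N * δ⁻¹ ^ AM ≤ Y := by
    refine le_trans ?_ hY
    have e2 : CM * N ≤ (CM + cM⁻¹) * N := mul_le_mul_of_nonneg_right (by linarith) hN0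
    exact mul_le_mul_of_nonneg_right e2 (by positivity)
  have hmz : (m : ℝ) ≠ 0 := by positivity
  have hdm : ∀ z ∈ D, (mt z).det ≠ 0 := by
    intro z hz h0
    have h1 := (hS.dom.shell z hz).1
    unfold aN at h1
    rw [h0, abs_zero, Real.zero_rpow (one_div_ne_zero hmz)] at h1
    norm_num at h1
  have hSD : DY D Y ⊆ D := fun z hz => hz.1
  have hSm : MeasurableSet (DY D Y) := hDYM m D hS.dom Y
  have hb : Tg m (bi m χ δ) := (hB δ hδ hδ2).1.toTg
  set d : ι → ℂ := fun i => DF m 1 (lam i) y with hd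
  have hH : ∀ i, HecA m N T (F i) (lam i) := fun i => (hF i).1.toHecA
  have h2 : ∀ i (g : Mat m) (x : VN m N), g.det ≠ 0 →
      opCu N (bi m χ δ) y D (opCu N (bi m χ δ) y D (F i)) g x =
        d i * (d i * Rr (bi m χ δ) 1 (fun g x => Rr (bi m χ δ) 1 (F i) g x) g x) := by
    intro i g x hg
    rw [da_twice (bi m χ δ) y hS.dom.meas (F i) (fun g x => Rr (bi m χ δ) 1 (F i) g x) (d i) hdm
      (fun g x hg => hOCA m N T D hS (F i) (lam i) (hH i) _ hb y g x hg) g x,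
      hOCA m N T D hS (fun g x => Rr (bi m χ δ) 1 (F i) g x) (lam i)
        (hRRA m N T D hS (F i) (lam i) (hH i) _ hb) _ hb y g x hg]
  have h4 := hHSA m N T D hS ι F lam hH hO χ δ hχ hδ hδ2 y (DY D Y) hSD hSm
  have h5 : ∀ i, ENNReal.ofReal (cM * δ ^ AM * ‖d i‖ ^ 4) ≤
      ∑ x, ∫⁻ g in DY D Y, ENNReal.ofReal (‖opCu N (bi m χ δ) y D
        (opCu N (bi m χ δ) y D (F i)) (mt g) x‖ ^ 2) ∂(hm m) := by
    intro i
    have e1 : ∑ x, ∫⁻ g in DY D Y, ENNReal.ofReal (‖opCu N (bi m χ δ) y D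
        (opCu N (bi m χ δ) y D (F i)) (mt g) x‖ ^ 2) ∂(hm m) =
        ENNReal.ofReal (‖d i‖ ^ 4) *
          ∑ x, ∫⁻ g in DY D Y, ENNReal.ofReal (‖Rr (bi m χ δ) 1
            (Rr (bi m χ δ) 1 (F i)) (mt g) x‖ ^ 2) ∂(hm m) := by
      rw [Finset.mul_sum]
      apply Finset.sum_congr rfl
      intro x _
      rw [← lintegral_const_mul' _ _ ENNReal.ofReal_ne_top]
      apply setLIntegral_congr_fun hSm
      intro g hg
      simp only
      rw [h2 i (mt g) x (hdm g (hSD hg)), ← ENNReal.ofReal_mul (by positivity)]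
      congr 1
      simp only [norm_mul]
      ring
    rw [e1]
    have e2 := hM N T D hS (F i) (lam i) (hF i).1 (da_norm hO i) (P i) δ (hF i).2.1 (hF i).2.2
      hδ hδ2 (hδc i) Y hY'
    calc ENNReal.ofReal (cM * δ ^ AM * ‖d i‖ ^ 4)
        = ENNReal.ofReal (‖d i‖ ^ 4) * ENNReal.ofReal (cM * δ ^ AM) := by
          rw [← ENNReal.ofReal_mul (by positivity)]
          congr 1
          ring
      _ ≤ _ := mul_le_mul' le_rfl e2
  have h6 := (Finset.sum_le_sum fun i _ => h5 i).trans h4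
  rw [← ENNReal.ofReal_sum_of_nonneg (fun i _ => by positivity), ← Finset.mul_sum] at h6
  have hp : (0 : ℝ) < cM * δ ^ AM := by positivity
  have h8 : (cM * δ ^ AM)⁻¹ ≤ (CM + cM⁻¹) * δ⁻¹ ^ AM := by
    rw [mul_inv, ← inv_pow]
    exact mul_le_mul_of_nonneg_right (by linarith) (by positivity)
  calc ENNReal.ofReal (∑ i, ‖d i‖ ^ 4)
      = ENNReal.ofReal ((cM * δ ^ AM)⁻¹ * (cM * δ ^ AM * ∑ i, ‖d i‖ ^ 4)) := by
        rw [inv_mul_cancel_left₀ hp.ne']
    _ = ENNReal.ofReal ((cM * δ ^ AM)⁻¹) *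
          ENNReal.ofReal (cM * δ ^ AM * ∑ i, ‖d i‖ ^ 4) :=
        ENNReal.ofReal_mul (by positivity)
    _ ≤ _ := mul_le_mul' (ENNReal.ofReal_le_ofReal h8) h6

end Pool.Agent.H83.GA
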